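import Pool.Agent.KS6_33.DT.TD

/-! # MP_4a0cc8_nt: congruences with the members of families over a number field with the parameters `c (b + q j) ^ r`,
uniformly in `r`

Let `K` be a number field, `A`, `B` polynomials over the ring of integers of `K` and `E_t : y² = x³ + A(t) x + B(t)`,
`D = 4A³ + 27B²`. Suppose that `D` has a simple nonzero zero in the algebraic closure (a place of multiplicative reduction
of type `I₁`). Consider the members with the rational integral parameters `t = c (b + q j) ^ r`, `j < N`, where `r` may be as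
large as one likes compared with `N`, so that the family has as few members of height at most `T` as one likes.

**Theorem.** For every `m` and all but `ε N` of the `j < N` (and all but `ε π(N)` of the primes `l ≤ N`, for the parameters
`c l ^ r`), `E_t` is an elliptic curve and for EVERY `n ≥ 2` there are `m` prime ideals of norm above `m` such that EVERY
elliptic curve `E₀` over `K` with `E_t[n] ≅ E₀[n]` has bad reduction at all of them. (1) For `N ≥ N₀(ε, m, w)` this is uniform
in all `r`, `b`, `c`, `q` such that `r`, `c`, `q` have at most `w` prime factors and the sum of the `1 / l` over the primes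
`l ∣ r` is at most a constant `c₀` which depends on `A`, `B` only. (2) If the zero of `D` is a rational integer `ρ` of the
form `c y ^ r`, the last condition is not needed.

So for every fixed `E₀`, and for all `E₀` with fewer than `m` primes of bad reduction at once, almost all `E_t` are not
congruent to `E₀` modulo any `n ≥ 2`.

Proof. For a prime `ℓ` with a homomorphism of the integers of `K(z)` to `𝔽_ℓ` and `gcd(r, ℓ - 1) = 1` exactly one class of
`j` modulo `ℓ` gives `D(t) ≡ 0` modulo a prime ideal `𝔮` of degree one above `ℓ`, and exactly one class modulo `ℓ²` in it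
gives `D(t) ≡ 0` modulo `𝔮²`. These primes have positive density (prime ideal theorem), those with `gcd(r, ℓ - 1) > 1` are
few by the theorem of Brun and Titchmarsh, and Turan's second moment over a finite set of primes that does not
depend on `r` gives one exact prime divisor, and in `m + 1` disjoint ranges `m + 1` of them. By the ramification argument
of the project FMK of this library a curve congruent to `E_t` modulo `n` has bad reduction at those of them which do not
divide the smallest prime factor of `n`. -/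

set_option autoImplicit false

open WeierstrassCurve NumberField Finset
open scoped Classical

namespace Pool.Agent.Results.MP_4a0cc8_nt.LargePowerFamilies

section
variable {K : Type} [Field K] [NumberField K]

/-- The curve `y² = x³ + Ax + B` over `K`, `A`, `B` integers of `K`. -/
def curve (A B : 𝓞 K) : WeierstrassCurve K := ⟨0, 0, 0, (A : K), (B : K)⟩

/-- The group of its points over the algebraic closure of `K`. -/
abbrev Points (A B : 𝓞 K) : Type := ((curve A B).baseChange (AlgebraicClosure K)).toAffine.Point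

/-- The action of a `K`-automorphism `σ` of the algebraic closure on the points. -/
noncomputable def galois (A B : 𝓞 K) (σ : AlgebraicClosure K ≃ₐ[K] AlgebraicClosure K) :
    Points A B →+ Points A B :=
  WeierstrassCurve.Affine.Point.map
    (σ : AlgebraicClosure K →ₐ[K] AlgebraicClosure K)

/-- The `n`-torsion of `y² = x³ + Ax + B` and that of `y² = x³ + A'x + B'` are isomorphic as Galois
modules: some map between the groups of points restricts to a bijective additive map of the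
`n`-torsion which commutes with the Galois group of `K`. -/
def Congruent (n : ℕ) (A B A' B' : 𝓞 K) : Prop :=
  ∃ f : Points A B → Points A' B', (∀ P Q, n • P = 0 → n • Q = 0 → f (P + Q) = f P + f Q) ∧
    Set.BijOn f {P | n • P = 0} {Q | n • Q = 0} ∧
    ∀ (σ : AlgebraicClosure K ≃ₐ[K] AlgebraicClosure K) (P : Points A B), n • P = 0 →
      f (galois A B σ P) = galois A' B' σ (f P)

/-- The discriminant of `y² = x³ + Ax + B`, up to the factor `-16`. -/
def disc (A B : 𝓞 K) : 𝓞 K := 4 * A ^ 3 + 27 * B ^ 2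

/-- `y² = x³ + Ax + B` is an elliptic curve, and for every `n ≥ 2` there are `m` prime ideals of norm above `m` which
contain the discriminants of ALL equations `y² = x³ + A₀x + B₀` such that the `n`-torsion is isomorphic to that of
`y² = x³ + Ax + B`: all elliptic curves congruent to `y² = x³ + Ax + B` modulo `n` have bad reduction there. -/
def Good (m : ℕ) (A B : 𝓞 K) : Prop :=
  disc A B ≠ 0 ∧ ∀ n : ℕ, 2 ≤ n → ∃ S : Finset (Ideal (𝓞 K)), S.card = m ∧
    (∀ 𝔮 ∈ S, 𝔮.IsPrime ∧ m < Ideal.absNorm 𝔮) ∧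
    ∀ A₀ B₀ : 𝓞 K, Congruent n A B A₀ B₀ → ∀ 𝔮 ∈ S, disc A₀ B₀ ∈ 𝔮

/-- the number of the `j < N` for which the member with the parameter `c (b + q j) ^ r` is not good -/
noncomputable def Bad (A B : Polynomial (𝓞 K)) (m r : ℕ) (b c q : ℤ) (N : ℕ) : ℝ :=
  (Nat.card {j : ℕ // j < N ∧ ¬ Good m (A.eval ((c * (b + q * (j : ℤ)) ^ r : ℤ) : 𝓞 K))
    (B.eval ((c * (b + q * (j : ℤ)) ^ r : ℤ) : 𝓞 K))} : ℝ)

/-- the number of the primes `l ≤ N` for which the member with the parameter `c l ^ r` is not good -/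
noncomputable def BadPrimes (A B : Polynomial (𝓞 K)) (m r : ℕ) (c : ℤ) (N : ℕ) : ℝ :=
  (Nat.card {l : ℕ // l ≤ N ∧ l.Prime ∧ ¬ Good m (A.eval ((c * (l : ℤ) ^ r : ℤ) : 𝓞 K))
    (B.eval ((c * (l : ℤ) ^ r : ℤ) : 𝓞 K))} : ℝ)

theorem good_of {m : ℕ} {A B : 𝓞 K} (h : Pool.Agent.N999.TH.Many (m + 1) A B) : Good m A B :=
  Pool.Agent.N999.TH.concl h

theorem bad_le {A B : Polynomial (𝓞 K)} {m r : ℕ} {b c q : ℤ} {N : ℕ} {y : ℝ}
    (h : (((range N).filter fun j : ℕ => ¬ Pool.Agent.N999.TH.Many (m + 1)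
        (A.eval ((c * (b + q * (j : ℤ)) ^ r : ℤ) : 𝓞 K))
        (B.eval ((c * (b + q * (j : ℤ)) ^ r : ℤ) : 𝓞 K))).card : ℝ) ≤ y) : Bad A B m r b c q N ≤ y := by
  refine le_trans ?_ h
  have h1 : Nat.card {j : ℕ // j < N ∧ ¬ Good m (A.eval ((c * (b + q * (j : ℤ)) ^ r : ℤ) : 𝓞 K))
      (B.eval ((c * (b + q * (j : ℤ)) ^ r : ℤ) : 𝓞 K))} = ((range N).filter fun j : ℕ =>
      ¬ Good m (A.eval ((c * (b + q * (j : ℤ)) ^ r : ℤ) : 𝓞 K))
      (B.eval ((c * (b + q * (j : ℤ)) ^ r : ℤ) : 𝓞 K))).card := by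
    apply Nat.subtype_card
    intro j
    rw [mem_filter, mem_range]
  unfold Bad
  rw [h1]
  have h2 : ((range N).filter fun j : ℕ =>
      ¬ Good m (A.eval ((c * (b + q * (j : ℤ)) ^ r : ℤ) : 𝓞 K))
      (B.eval ((c * (b + q * (j : ℤ)) ^ r : ℤ) : 𝓞 K))).card ≤ ((range N).filter fun j : ℕ =>
      ¬ Pool.Agent.N999.TH.Many (m + 1) (A.eval ((c * (b + q * (j : ℤ)) ^ r : ℤ) : 𝓞 K))
        (B.eval ((c * (b + q * (j : ℤ)) ^ r : ℤ) : 𝓞 K))).card := by
    refine card_le_card fun j hj => ?_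
    rw [mem_filter] at hj ⊢
    exact ⟨hj.1, fun h3 => hj.2 (good_of h3)⟩
  exact_mod_cast h2

theorem badPrimes_le {A B : Polynomial (𝓞 K)} {m r : ℕ} {c : ℤ} {N : ℕ} {ε : ℝ}
    (h : ((((range (N + 1)).filter Nat.Prime).filter fun l : ℕ => ¬ Pool.Agent.N999.TH.Many (m + 1)
        (A.eval ((c * (l : ℤ) ^ r : ℤ) : 𝓞 K)) (B.eval ((c * (l : ℤ) ^ r : ℤ) : 𝓞 K))).card : ℝ) ≤
        ε * ((range (N + 1)).filter Nat.Prime).card) : BadPrimes A B m r c N ≤ ε * Nat.primeCounting N := by
  have e0 : ((range (N + 1)).filter Nat.Prime).card = Nat.primeCounting N := by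
    rw [Nat.primeCounting, Nat.primeCounting', Nat.count_eq_card_filter_range]
  rw [← e0]
  refine le_trans ?_ h
  have h1 : Nat.card {l : ℕ // l ≤ N ∧ l.Prime ∧ ¬ Good m (A.eval ((c * (l : ℤ) ^ r : ℤ) : 𝓞 K))
      (B.eval ((c * (l : ℤ) ^ r : ℤ) : 𝓞 K))} = (((range (N + 1)).filter Nat.Prime).filter fun l : ℕ =>
      ¬ Good m (A.eval ((c * (l : ℤ) ^ r : ℤ) : 𝓞 K)) (B.eval ((c * (l : ℤ) ^ r : ℤ) : 𝓞 K))).card := by
    apply Nat.subtype_card
    intro j
    rw [mem_filter, mem_filter, mem_range, Nat.lt_succ_iff, and_assoc]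
  unfold BadPrimes
  rw [h1]
  have h2 : (((range (N + 1)).filter Nat.Prime).filter fun l : ℕ =>
      ¬ Good m (A.eval ((c * (l : ℤ) ^ r : ℤ) : 𝓞 K)) (B.eval ((c * (l : ℤ) ^ r : ℤ) : 𝓞 K))).card ≤
      (((range (N + 1)).filter Nat.Prime).filter fun l : ℕ => ¬ Pool.Agent.N999.TH.Many (m + 1)
        (A.eval ((c * (l : ℤ) ^ r : ℤ) : 𝓞 K)) (B.eval ((c * (l : ℤ) ^ r : ℤ) : 𝓞 K))).card := by
    refine card_le_card fun j hj => ?_
    rw [mem_filter] at hj ⊢
    exact ⟨hj.1, fun h3 => hj.2 (good_of h3)⟩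
  exact_mod_cast h2

end

/-- **Theorem.** Let `K` be a number field, `A`, `B` polynomials over its ring of integers and `D = 4A³ + 27B²`. (1) If `D`
has a simple nonzero zero in the algebraic closure, then there is `c₀ > 0` such that for all `ε > 0`, `w` and `m` there is `N₀`
such that for all `N ≥ N₀` and all `r ≥ 1`, `b`, `c ≠ 0`, `q ≠ 0` such that `r`, `c`, `q` have at most `w` prime factors and the
sum of the `1 / l` over the primes `l ∣ r` is at most `c₀`: all but `ε N` of the `j < N` (of the curves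
`y² = x³ + A(t) x + B(t)` with `t = c (b + q j) ^ r`) and all but `ε π(N)` of the primes `l ≤ N` (with `t = c l ^ r`) are
good. (2) If `ρ ≠ 0` is a rational integer and a simple zero of `D`, then for all `ε > 0`, `w` and `m` there is `N₀` such that
this holds for all `N ≥ N₀`, all `r ≥ 1`, `b`, `q ≠ 0` such that `r`, `q` have at most `w` prime factors and all integers `c`
with `ρ = c y ^ r` for some integer `y`. -/
theorem result (K : Type) [Field K] [NumberField K] (A B D : Polynomial (𝓞 K)) (hD : D = 4 * A ^ 3 + 27 * B ^ 2) :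
    ((∃ z : AlgebraicClosure K, z ≠ 0 ∧ Polynomial.aeval z (D.map (algebraMap (𝓞 K) K)) = 0 ∧
        Polynomial.aeval z (Polynomial.derivative (D.map (algebraMap (𝓞 K) K))) ≠ 0) →
      ∃ c₀ : ℝ, 0 < c₀ ∧ ∀ ε : ℝ, 0 < ε → ∀ w m : ℕ, ∃ N₀ : ℕ, ∀ (N r : ℕ) (b c q : ℤ), N₀ ≤ N → 1 ≤ r → c ≠ 0 → q ≠ 0 →
        r.primeFactors.card ≤ w → c.natAbs.primeFactors.card ≤ w → q.natAbs.primeFactors.card ≤ w →
        ∑ l ∈ r.primeFactors, (1 : ℝ) / l ≤ c₀ →
        Bad A B m r b c q N ≤ ε * N ∧ BadPrimes A B m r c N ≤ ε * Nat.primeCounting N) ∧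
    ∀ ρ : ℤ, ρ ≠ 0 → D.eval (ρ : 𝓞 K) = 0 → (Polynomial.derivative D).eval (ρ : 𝓞 K) ≠ 0 →
      ∀ ε : ℝ, 0 < ε → ∀ w m : ℕ, ∃ N₀ : ℕ, ∀ (N r : ℕ) (b c q y : ℤ), N₀ ≤ N → 1 ≤ r → q ≠ 0 →
        r.primeFactors.card ≤ w → q.natAbs.primeFactors.card ≤ w → c * y ^ r = ρ →
        Bad A B m r b c q N ≤ ε * N ∧ BadPrimes A B m r c N ≤ ε * Nat.primeCounting N := by
  subst hD
  constructor
  · rintro ⟨z, hz, h0, h1⟩
    obtain ⟨c₀, hc₀, h⟩ := Pool.Agent.KS6_33.DT.est1 A B z hz h0 h1
    refine ⟨c₀, hc₀, fun ε hε w m => ?_⟩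
    obtain ⟨N₀, hN₀⟩ := Pool.Agent.KS6_33.DT.many_of A B w _ (h w) (m + 1) ε hε
    refine ⟨N₀, fun N r b c q hN hr hc hq hrw hcw hqw hsum => ?_⟩
    obtain ⟨h2, h3⟩ := hN₀ N r c hN ⟨by omega, hc, hrw, hcw, hsum⟩
    exact ⟨bad_le (h2 b q hq hqw), badPrimes_le h3⟩
  · intro ρ hρ h0 h1 ε hε w m
    obtain ⟨N₀, hN₀⟩ := Pool.Agent.KS6_33.DT.many_of A B w _ (Pool.Agent.KS6_33.DT.est2 A B ρ hρ h0 h1 w) (m + 1) ε hε
    refine ⟨N₀, fun N r b c q y hN hr hq hrw hqw hcy => ?_⟩
    obtain ⟨h2, h3⟩ := hN₀ N r c hN ⟨by omega, hrw, y, hcy⟩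
    exact ⟨bad_le (h2 b q hq hqw), badPrimes_le h3⟩

end Pool.Agent.Results.MP_4a0cc8_nt.LargePowerFamilies
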